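import Pool.Agent.Q26.CP.AllFour

/-!
# The Chow-Künneth conjecture is a bound for the projectors over finite fields

Consider the smooth projective varieties `X ⊂ ℙ^N` of a bounded type, e.g. of given dimension and
degree, over algebraically closed fields. A Chow-Künneth decomposition of `X` has complexity at most
`n` if the projectors `π_i` are given by cycles `(Z₁ - Z₂)/a` on `X × X`, where `1 ≤ a ≤ n` and the
effective cycles `Z₁`, `Z₂` have degree at most `n`, and the relations `π_i π_j = δ_ij π_i`,
`∑ π_i = Δ` are given by rational equivalences (families of effective cycles over `ℙ¹`) of degree at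
most `n`.

1. The Chow-Künneth conjecture over all algebraically closed fields is equivalent to: for each
   bounded type there is an `n` such that all varieties of this type over `F̄_p`, for all primes `p`,
   have a decomposition of complexity at most `n`.
2. The conjecture over all algebraically closed fields of characteristic zero is equivalent to the
   conjecture over `ℂ`, and to: for each type there is an `n` such that this is true for infinitely
   many primes `p` (equivalently, for all but finitely many primes).
3. The conjecture over the algebraically closed fields of characteristic `p` is equivalent to: for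
   each type there is an `n` such that this is true over `F̄_p`.
4. For curves, surfaces and abelian varieties of a bounded type, where decompositions are known to
   exist, there is one `n` for all algebraically closed fields of all characteristics.

So the conjecture over all fields is contained in the one over finite fields, if one asks for bounds;
over finite fields the Künneth projectors modulo homological equivalence are known to be algebraic
(Katz and Messing), and the lifts to Chow groups exist if the ideal of homologically trivial
correspondences is nilpotent.
-/

set_option autoImplicit false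

namespace Pool.Agent.Results.MP_638e8a_ag.BoundedProjectors

open Pool.Agent.Q26.CP

/-- The smooth projective varieties over algebraically closed fields `K`. There are bounded types
`t : Ty`; the varieties of type `t` over `K` are parametrized by the points of `K ^ k t` with the
property `isVar t`, and `ck t n` says that there is a Chow-Künneth decomposition of complexity at
most `n`. Both are first-order properties (relative Hilbert schemes; the action of a family of
cycles on the relative cohomology is locally constant). `CK K t x` says that the variety `X` over `K`
with parameters `x` has a Chow-Künneth decomposition. `Known t` says that the type `t` consists of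
curves, of surfaces, or of abelian varieties; for them Chow-Künneth decompositions exist
(`murre`). -/
structure Varieties where
  Ty : Type
  k : Ty → ℕ
  isVar : ∀ t, Pred (k t)
  ck : ∀ t, ℕ → Pred (k t)
  fo_isVar : ∀ t, IsFirstOrder (isVar t)
  fo_ck : ∀ t n, IsFirstOrder (ck t n)
  ck_mono : ∀ t (m n : ℕ), m ≤ n → ∀ (K : Type) [Field K] (x : Fin (k t) → K),
    ck t m K x → ck t n K x
  CK : ∀ (K : Type) [Field K] (t : Ty), (Fin (k t) → K) → Prop
  ck_iff : ∀ (K : Type) [Field K] [IsAlgClosed K] (t : Ty) (x : Fin (k t) → K),
    isVar t K x → (CK K t x ↔ ∃ n, ck t n K x)
  Known : Ty → Prop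
  murre : ∀ t, Known t → ∀ (K : Type) [Field K] [IsAlgClosed K] (x : Fin (k t) → K),
    isVar t K x → CK K t x

/-- the Chow-Künneth conjecture for all smooth projective varieties over `K` -/
def ChowKunneth (M : Varieties) (K : Type) [Field K] : Prop :=
  ∀ (t : M.Ty) (x : Fin (M.k t) → K), M.isVar t K x → M.CK K t x

/-- all varieties of type `t` over `K` have a Chow-Künneth decomposition of complexity at most
`n` -/
def Bound (M : Varieties) (t : M.Ty) (n : ℕ) (K : Type) [Field K] : Prop :=
  ∀ x : Fin (M.k t) → K, M.isVar t K x → M.ck t n K x

/-- the conjecture for one type as a `Problem` -/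
def Varieties.problem (M : Varieties) (t : M.Ty) : Problem where
  k := M.k t
  hyp _ := M.isVar t
  con := M.ck t
  fo_hyp _ := M.fo_isVar t
  fo_con := M.fo_ck t
  hyp_anti _ _ _ _ _ _ h := h
  con_mono := M.ck_mono t

theorem chowKunneth_iff (M : Varieties) (K : Type) [Field K] [IsAlgClosed K] :
    ChowKunneth M K ↔ ∀ t, (M.problem t).Solved K := by
  constructor
  · intro h t x hx
    exact (M.ck_iff K t x (hx 0)).1 (h t x (hx 0))
  · intro h t x hx
    exact (M.ck_iff K t x hx).2 (h t x fun _ => hx)

/-- The Chow-Künneth conjecture over all algebraically closed fields (in characteristic zero, in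
characteristic `p`) holds iff for each bounded type of smooth projective varieties over `F̄_p` there
are Chow-Künneth decompositions of bounded complexity, with a bound independent of `p` (for
infinitely many, equivalently for all but finitely many `p`; for the given `p`). For curves, surfaces
and abelian varieties of a bounded type there is one bound for all algebraically closed fields. -/
theorem result (M : Varieties) :
    ((∀ (K : Type) [Field K] [IsAlgClosed K], ChowKunneth M K) ↔
      ∀ t, ∃ n, ∀ p : Nat.Primes, Bound M t n (Fbar p)) ∧
    [∀ (K : Type) [Field K] [IsAlgClosed K] [CharZero K], ChowKunneth M K, ChowKunneth M ℂ,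
      ∀ t, ∃ n, {p : Nat.Primes | Bound M t n (Fbar p)}.Infinite,
      ∀ t, ∃ n, {p : Nat.Primes | ¬ Bound M t n (Fbar p)}.Finite].TFAE ∧
    (∀ p : Nat.Primes, (∀ (K : Type) [Field K] [IsAlgClosed K] [CharP K p], ChowKunneth M K) ↔
      ∀ t, ∃ n, Bound M t n (Fbar p)) ∧
    ∀ t, M.Known t → ∃ n, ∀ (K : Type) [Field K] [IsAlgClosed K], Bound M t n K :=
  ⟨all_iff M.problem (ChowKunneth M) (fun K _ _ => chowKunneth_iff M K)
      (fun t n p => Bound M t n (Fbar p)) fun _ _ _ => Iff.rfl,
    zero_tfae M.problem (ChowKunneth M) (fun K _ _ => chowKunneth_iff M K)
      (fun t n p => Bound M t n (Fbar p)) fun _ _ _ => Iff.rfl,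
    fun p => char_iff M.problem (ChowKunneth M) (fun K _ _ => chowKunneth_iff M K)
      (fun t n p => Bound M t n (Fbar p)) (fun _ _ _ => Iff.rfl) p,
    fun t ht => (M.problem t).solved_iff_all.1 fun K _ _ x hx =>
      (M.ck_iff K t x (hx 0)).1 (M.murre t ht K x (hx 0))⟩

end Pool.Agent.Results.MP_638e8a_ag.BoundedProjectors
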