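import Pool.Agent.Q28.GS.Final

/-!
# MP_638e8a_ag: Galois descent of Chow-Künneth decompositions
-/

namespace Pool.Agent.Results.MP_638e8a_ag.GaloisStableFiltration

open Pool.Agent.Q28.GS

/-- Galois descent of Chow-Künneth decompositions. In the application `X` is a smooth projective
variety over `k`, `A = CH^d(X' × X')` (rational coefficients) for the base change `X'` of `X` to a
separable closure of `k`, `Γ` is the Galois group, so that the fixed ring is `CH^d(X × X)`, `B` is the
quotient of `A` by the nil ideal of the algebraically trivial classes (or `B = A`), `V i = H^i(X')`,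
and `S` is a set of elements generating a dense subgroup of `Γ` (the Frobenius if `k` is finite, the
complex conjugation for `k = ℝ`).

There are Galois invariant Chow-Künneth projectors in `A` if and only if there are Chow-Künneth
projectors `b i` in `B` such that, for some ordering of the degrees, `b j ∘ g(b i) = 0` for all
`g ∈ S` and all `i` before `j`. -/
theorem result {N : ℕ} {K : Type*} [Ring K] {V : Fin (N + 1) → Type*} [∀ i, AddCommGroup (V i)]
    [∀ i, Module K (V i)] {A B : Type*} [Ring A] [Algebra ℚ A] [Ring B] [Algebra ℚ B]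
    {Γ : Type*} [Group Γ] [MulSemiringAction Γ A] [MulSemiringAction Γ B]
    (q : A →+* B) (hq : Function.Surjective q) (hnil : ∀ a, q a = 0 → IsNilpotent a)
    (hqΓ : ∀ (g : Γ) a, q (g • a) = g • q a)
    (hfin : ∀ a : A, (MulAction.orbit Γ a).Finite) (ρ : ∀ i, B →+* Module.End K (V i))
    (S : Set Γ) (hS : ∀ a : A, (∀ g ∈ S, g • a = a) → ∀ g : Γ, g • a = a) :
    (∃ p : Fin (N + 1) → A, IsDecomposition (fun i => (ρ i).comp q) p ∧
      ∀ (g : Γ) i, g • p i = p i) ↔
    ∃ (σ : Equiv.Perm (Fin (N + 1))) (b : Fin (N + 1) → B), IsDecomposition ρ b ∧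
      ∀ g ∈ S, ∀ i j, σ i < σ j → b j * (g • b i) = 0 :=
  final q hq hnil hqΓ hfin ρ S hS

end Pool.Agent.Results.MP_638e8a_ag.GaloisStableFiltration
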