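import Pool.Agent.Q55.FU.Main

/-!
# Varieties over finite fields with exactly one Chow-Künneth decomposition

Let `𝒱` be a class of smooth projective varieties over the field with `q` elements, closed under
products, with Chow groups `C`, a Weil cohomology `H` and the Frobenius endomorphisms `Fr`. Let
`X` be in `𝒱`, let `b⁺` and `b⁻` be the sums of its Betti numbers of even and of odd degree, and
`N = (b⁺ + 1) (b⁻ + 1)`. The following are equivalent:

1. the single variety `X ^ N` has exactly one Chow-Künneth decomposition;
2. every variety `Y` whose Chow motive is a direct summand of a Tate twist of the motive of a power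
   of `X` has exactly one Chow-Künneth decomposition;
3. these varieties `Y` have canonical Chow-Künneth decompositions: unique, given by linear
   combinations of (transposed graphs of) powers of Frobenius, acting on `CH^i(Y)` as the identity
   in degree `2 i` and as zero in the other degrees (hence satisfying the conjectures (B) and (C) of
   Murre), respected by all correspondences of all degrees, and compatible with products;
4. the permutations of the factors of `X ^ n` are linearly dependent modulo rational equivalence
   for one `n < (b⁺ + 2) (b⁻ + 2)`;
5. they are linearly dependent modulo rational equivalence for `n = N`;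
6. numerically trivial idempotent self-correspondences of `X ^ N` vanish.
-/

open Pool.Agent.H914 Pool.Agent.H914.VarClass Pool.Agent.W492.BB Pool.Agent.TH133
  Pool.Agent.TH829.Prime Pool.Agent.Q55.Nil Pool.Agent.Q55.FU
open Pool.Agent.Y110 (GradedCommutative)

universe u v w

namespace Pool.Agent.Results.MP_638e8a_ag.UniqueDecomposition

/-- **Uniqueness of Chow-Künneth decompositions over finite fields is decided by one power and by
one relation between permutations.** -/
theorem result {k : Type u} [Field k] {𝒱 : VarClass k} {C : TheoryData.{u, v, 0} 𝒱 ℚ}
    [IsChowProj C] {K : Type w} [Field K] [CharZero K] {H : WeilTheoryData.{u, v, w} C K}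
    [IsWeilProj H] (hg : GradedCommutative H) {q : ℕ} (hq : 1 < q)
    {Fr : ∀ X : 𝒱.Obj, X ⟶ X} (hFr : IsFrobenius H Fr q) (X : 𝒱.Obj) :
    [HasUniqueCK H (powN H X), AllUnique H X, HasCanonical H Fr X, OneRelation H X,
      RelationAt H X, NoPhantomsAt H X].TFAE :=
  main hg hFr hq X

end Pool.Agent.Results.MP_638e8a_ag.UniqueDecomposition
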